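import Pool.Agent.Lib.MP_8d7d3d_lc.Eff

namespace Pool.Agent.Results.MP_8d7d3d_lc.NonAdaptiveTester

/-- `H` is a vertex-disjoint union of complete bipartite graphs -/
def IsBCC {N : ℕ} (H : SimpleGraph (Fin N)) : Prop :=
  ∃ (part : Fin N → ℕ) (side : Fin N → Bool), ∀ a b,
    H.Adj a b ↔ part a = part b ∧ side a ≠ side b

/-- the pairs of sample positions whose adjacency is queried, in lexicographic order -/
def queries (k : ℕ) : List (Fin k × Fin k) :=
  (List.finRange k ×ˢ List.finRange k).filter fun p => (p.1.val + 1) * (p.2.val + 1) ≤ k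

open Classical in
/-- all the tester sees: `k` in unary, a separator, and the answers to the queries -/
noncomputable def transcript {N k : ℕ} (G : SimpleGraph (Fin N)) (x : Fin k → Fin N) : List Bool :=
  List.replicate k true ++ false :: (queries k).map fun p => decide (G.Adj (x p.1) (x p.2))

theorem result : ∃ (B C : ℝ) (accept : List Bool → Bool),
    Nonempty (Turing.TM2ComputableInPolyTime (fun s : List Bool => s) (fun b : Bool => [b])
      accept) ∧
    ∀ ε : ℝ, 0 < ε → ε ≤ 1 → ∀ k : ℕ, k = ⌈B * ε ^ (-(3 / 2 : ℝ)) * Real.log (2 / ε) ^ 6⌉₊ →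
      ((queries k).length : ℝ) ≤ C * ε ^ (-(3 / 2 : ℝ)) * Real.log (2 / ε) ^ 7 ∧
      ∀ (N : ℕ) (G : SimpleGraph (Fin N)),
        (IsBCC G → ∀ x : Fin k → Fin N, accept (transcript G x) = true) ∧
        ((∀ H : SimpleGraph (Fin N), IsBCC H →
            ε * (N : ℝ) ^ 2 < Set.ncard (symmDiff G.edgeSet H.edgeSet)) →
          2 * N ^ k ≤ 3 * Set.ncard {x : Fin k → Fin N | accept (transcript G x) = false}) := by
  obtain ⟨B, C, hC⟩ := Pool.Agent.Lib.MP_8d7d3d_lc.main'
  refine ⟨B, C, _, Pool.Agent.Lib.MP_8d7d3d_lc.tm_acc, fun ε h0 h1 k hk => ?_⟩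
  obtain ⟨hk1, hk2⟩ := hC ε h0 h1 k hk
  have key : ∀ {N : ℕ} (G : SimpleGraph (Fin N)) (x : Fin k → Fin N),
      Pool.Agent.Lib.MP_8d7d3d_lc.acc (transcript G x) = false ↔
        Pool.Agent.Lib.MP_8d7d3d_lc.Rej G.Adj x := fun G x =>
    (Pool.Agent.Lib.MP_8d7d3d_lc.acc_false _).trans (by
      simp only [Pool.Agent.Lib.MP_8d7d3d_lc.Rej, decide_eq_true_eq, decide_eq_false_iff_not])
  refine ⟨hk1, fun N G => ⟨?_, fun h => by simpa only [key] using hk2 N G h⟩⟩
  rintro ⟨part, side, h⟩ x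
  by_contra hx
  obtain ⟨a, b, c, d, -, -, -, -, e1, e2, e3, e4⟩ := (key G x).1 (Bool.eq_false_iff.2 hx)
  rw [h] at e1 e2 e3 e4
  refine e4 ⟨e1.1.trans (e2.1.symm.trans e3.1), ?_⟩
  have s1 := e1.2
  have s2 := e2.2
  have s3 := e3.2
  revert s1 s2 s3
  cases side (x a) <;> cases side (x b) <;> cases side (x c) <;> cases side (x d) <;> simp

end Pool.Agent.Results.MP_8d7d3d_lc.NonAdaptiveTester
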